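import Mathlib
import Pool.Agent.Lib_helper80.CutoffDefs
import Pool.Agent.Lib_helper80.CutoffProof

/-!
# The product condition does not imply cutoff for walks on abelian Cayley graphs

The definitions (random walk on the Cayley multigraph, total variation mixing time, spectral gap,
product condition, cutoff) are in `Pool.Agent.Lib_helper80.CutoffDefs`; the proof, with an
explanation of the construction, is in `Pool.Agent.Lib_helper80.CutoffProof`.
-/

namespace Pool.Agent.Results.MP_7f396f_pr.AbelianNoCutoff

open Pool.Agent.Lib_helper80.Cutoff

/-- **Disproof of the conjecture.**  There are finite groups `G_N`, abelian of exponent dividing two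
(in particular nilpotent of step at most one), and subsets `Z_N` with `1 ∉ Z_N`, such that the simple
random walks on the undirected Cayley graphs `G_N(Z_N)` are irreducible and aperiodic and satisfy the
product condition, but this sequence of walks does not exhibit cutoff. -/
theorem result : ∃ (G : ℕ → Type) (_ : ∀ N, Group (G N)) (_ : ∀ N, Fintype (G N))
    (_ : ∀ N, DecidableEq (G N)) (Z : ∀ N, Finset (G N)),
    (∀ N, Group.IsNilpotent (G N) ∧ Group.nilpotencyClass (G N) ≤ 1) ∧
    (∀ N, (∀ x y : G N, x * y = y * x) ∧ (∀ x : G N, x * x = 1) ∧ (1 : G N) ∉ Z N) ∧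
    (∀ N, Irred (srw (Z N)) ∧ Aper (srw (Z N))) ∧
    ProductCondition G (fun N => srw (Z N)) ∧
    ¬ Cutoff G (fun N => srw (Z N)) :=
  main_result

end Pool.Agent.Results.MP_7f396f_pr.AbelianNoCutoff
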